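import Mathlib
import Pool.Agent.H418.LR.Rel

set_option autoImplicit false

/-!
# Every subgroup of finite rank of a torus lies in groups of every larger rank which are not Lehmer
groups

The notions of the problem are those of the library, for the torus `G` of dimension `n` over the
algebraic numbers (`Pool/Agent/E8helper9/RM/Defs.lean` there): points `Pt n`, height `hG`,
subvarieties `IsSubvariety`, degree `degree`, obstruction index `obstruction`, essential minimum
`essMin`, the field `coordField K Γ`, torsion subvarieties `IsTorsionVariety`, transversality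
`IsTransverse`, and Lehmer groups `IsLehmerGroup`. Moreover `IsSaturated Γ` says that `Γ` is equal
to its saturation, `FinRk` and `rk` are finiteness of the rank and the rank of an abelian group
`M`, that is the dimension of `ℚ ⊗ M`, and `coordGroup Γ` is the group generated by the coordinates
of the points of `Γ`.
-/

namespace Pool.Agent.Results.MP_187c26_nt.RankJumps

open Pool.Agent.E8helper9.RM
open scoped TensorProduct

variable {n : ℕ}

/-- some product of coordinates of points of `Γ` has no positive power in the group generated by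
the coordinates of the points of `Δ` -/
def HasNewCoordinates (Δ Γ : Subgroup (Pt n)) : Prop :=
  ∃ y ∈ coordGroup Γ, ∀ m : ℕ, 0 < m → y ^ m ∉ coordGroup Δ

/-- `Γ` is not a Lehmer group over any field `K` of algebraic numbers -/
def NeverLehmer (Γ : Subgroup (Pt n)) : Prop :=
  ∀ K : IntermediateField ℚ Qb, ¬ IsLehmerGroup K Γ

/-- `Γ` is saturated and of finite rank `r` -/
def SaturatedOfRank (Γ : Subgroup (Pt n)) (r : ℕ) : Prop :=
  IsSaturated Γ ∧ FinRk (Additive Γ) ∧ rk (Additive Γ) = r

/-- `Γ` is of finite rank, less than `r` -/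
def RankLess (Γ : Subgroup (Pt n)) (r : ℕ) : Prop :=
  FinRk (Additive Γ) ∧ rk (Additive Γ) < r

/-- **Every subgroup of finite rank lies in groups of every larger rank which are not Lehmer
groups.** Let `n ≥ 2`, and let `K` be any field of algebraic numbers.

(1) Let `Γ` be a saturated subgroup of finite rank of the torus of dimension `n` and `Δ` a subgroup
of `Γ` with `rk Γ < rk Δ + n`, such that a coordinate product `y` of points of `Γ` has no positive
power in the group generated by the coordinates of the points of `Δ`. Then `Γ` is not a Lehmer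
group over `K`.

(2) For every subgroup `Δ` of finite rank and every `k ≥ 1` there is a saturated group `Γ` of rank
`rk Δ + k` which contains `Δ` and is not a Lehmer group over any `K`.

(3) For every `r ≥ 1` there is a saturated group `Γ` of rank `r` which is not a Lehmer group over
any `K`. -/
theorem result (n : ℕ) (hn : 2 ≤ n) :
    (∀ Δ Γ : Subgroup (Pt n), Δ ≤ Γ → IsSaturated Γ → RankLess Γ (rk (Additive Δ) + n) →
      HasNewCoordinates Δ Γ → NeverLehmer Γ) ∧
    (∀ Δ : Subgroup (Pt n), FinRk (Additive Δ) → ∀ k : ℕ, 0 < k →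
      ∃ Γ : Subgroup (Pt n), Δ ≤ Γ ∧ SaturatedOfRank Γ (rk (Additive Δ) + k) ∧ NeverLehmer Γ) ∧
    (∀ r : ℕ, 0 < r → ∃ Γ : Subgroup (Pt n), SaturatedOfRank Γ r ∧ NeverLehmer Γ) := by
  refine ⟨fun Δ Γ hle hΓ hlt hnew K =>
    Pool.Agent.H418.LR.not_lehmer_rel (by omega) hle hΓ hlt.1 hlt.2 hnew K,
    fun Δ hfin k hk => ?_, fun r hr => ?_⟩
  · obtain ⟨Γ, h0, h1, h2, h3, h4⟩ := Pool.Agent.H418.LR.exists_not_lehmer hn Δ hfin k hk
    exact ⟨Γ, h0, ⟨h1, h2, h3⟩, h4⟩
  have h0 : Subsingleton (ℚ ⊗[ℤ] Additive (⊥ : Subgroup (Pt n))) := by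
    have : Subsingleton (Additive (⊥ : Subgroup (Pt n))) :=
      inferInstanceAs (Subsingleton (⊥ : Subgroup (Pt n)))
    refine subsingleton_of_forall_eq 0 fun w => ?_
    induction w using TensorProduct.induction_on with
    | zero => rfl
    | tmul q x => rw [Subsingleton.elim x 0, TensorProduct.tmul_zero]
    | add a b ha hb => rw [ha, hb, add_zero]
  have hfin : FinRk (Additive (⊥ : Subgroup (Pt n))) := by
    show FiniteDimensional ℚ (ℚ ⊗[ℤ] Additive (⊥ : Subgroup (Pt n)))
    infer_instance
  have hrk : rk (Additive (⊥ : Subgroup (Pt n))) = 0 := by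
    show Module.finrank ℚ (ℚ ⊗[ℤ] Additive (⊥ : Subgroup (Pt n))) = 0
    exact Module.finrank_zero_of_subsingleton
  obtain ⟨Γ, -, h1, h2, h3, h4⟩ := Pool.Agent.H418.LR.exists_not_lehmer hn ⊥ hfin r hr
  exact ⟨Γ, ⟨h1, h2, by rw [h3, hrk, zero_add]⟩, h4⟩

end Pool.Agent.Results.MP_187c26_nt.RankJumps
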