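import Mathlib
import Pool.Agent.H594.WI.Multi

/-!
# Rémond's inequality for translates of torsion subvarieties of tori by values of functions

Let `G` be the torus of dimension `n`, let `Γ ⊂ G(ℚ̄)` be ANY subgroup of finite rank, and let
`f_j = A_j / B_j`, `1 ≤ j ≤ n`, be rational functions with algebraic coefficients, with simple zeros
and poles only, no two of them with a common zero or pole, each of them with at least `N` zeros and
poles in `ℂ`. Put `F(z) = (f_1(z), …, f_n(z)) ∈ G`, for algebraic numbers `z` of degree at most `d`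
over a number field `K`.

(1) For all these `z`, ALL proper `Γ`-torsion subvarieties `T = γ B` (`B` any proper connected
algebraic subgroup, `γ` any point of the saturation of `Γ`) and all points `w` of `F(z) T` the largest
of the heights of the coordinates of `w` is at least `((N - 2 d) / 2 - ε) h(z) - C`, where `C` does
not depend on `z`, `B`, `γ` and `w`. In other words the distance, with respect to the height, of
`F(z)` from the union of all proper `Γ`-torsion subvarieties of `G` is at least this number. If `z` is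
an algebraic integer one can take `(N - 2 d + 1) / 2`.

(2) Let `0 ≤ κ < (N - 2 d) / 2`. For all but finitely many of these `z` all the translates `F(z) T` of
`Γ`-torsion subvarieties `T` are `Γ`-transverse, all points of `F(z) T`, `T` proper, have height more
than `κ h(z)`, and so the essential minimum of every subvariety `V` contained in some `F(z) T`, `T`
proper, is at least `κ h(z)`. As the obstruction index is at least `1`, Rémond's inequality
`ω(V) μ_ess(V) ≥ c` holds for these `V` with a right hand side which tends to infinity with `h(z)`.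

(For `n = 1` the exponent can be improved, see the hand-in on the problem `MP_f61260_nt`.)

A character vanishing on `B` shows that `F(z)` and `w` are multiplicatively related modulo a group
of finite rank; the inequality then follows from Wirsing's theorem (a theorem of the library), see
`Pool.Agent.H594.WI.sqf_height`.
-/

set_option autoImplicit false

namespace Pool.Agent.Results.MP_187c26_nt.TranslatesByValues

open Pool.Agent.H594.ML
open Pool.Agent.H594.BD (degLe_alg)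
open Pool.Agent.Helper259.AbsHt (Qbar)
open Pool.Agent.Y215.SK (DivHull h1 h1_val h1_nonneg h1_inv)

/-- the field of algebraic numbers -/
abbrev Qb := AlgebraicClosure ℚ

/-- the points of the torus `G` of dimension `n` with algebraic coordinates -/
abbrev Pt (n : ℕ) := Fin n → Qbˣ

/-- the canonical height on `G`: the sum of the absolute logarithmic Weil heights of the
coordinates -/
noncomputable def hG {n : ℕ} (x : Pt n) : ℝ := ∑ i, NumberField.absLogHeight₁ (x i : Qb)

/-- Zariski closed subsets of `G`: the sets of common zeros in `G` of polynomials with algebraic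
coefficients -/
def IsZClosed {n : ℕ} (Z : Set (Pt n)) : Prop :=
  ∃ S : Set (MvPolynomial (Fin n) Qb),
    Z = {x | ∀ f ∈ S, MvPolynomial.eval (fun i => (x i : Qb)) f = 0}

/-- subvarieties of `G`: the irreducible Zariski closed subsets -/
def IsSubvariety {n : ℕ} (V : Set (Pt n)) : Prop :=
  IsZClosed V ∧ V.Nonempty ∧
    ∀ A B : Set (Pt n), IsZClosed A → IsZClosed B → V ⊆ A ∪ B → V ⊆ A ∨ V ⊆ B

/-- `Γ`-torsion subvarieties: the sets `γ B` with `B` a connected (that is, irreducible) algebraic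
subgroup of `G` and `γ` in the saturation of `Γ`, that is, with a positive power in `Γ` -/
def IsTorsionVariety {n : ℕ} (Γ : Subgroup (Pt n)) (T : Set (Pt n)) : Prop :=
  ∃ B : Subgroup (Pt n), IsSubvariety (B : Set (Pt n)) ∧
    ∃ γ : Pt n, (∃ m : ℕ, 0 < m ∧ γ ^ m ∈ Γ) ∧ T = {x | ∃ b ∈ B, x = γ * b}

/-- `V` is `Γ`-transverse: it is contained in no proper `Γ`-torsion subvariety -/
def IsTransverse {n : ℕ} (Γ : Subgroup (Pt n)) (V : Set (Pt n)) : Prop :=
  ∀ T : Set (Pt n), IsTorsionVariety Γ T → T ≠ Set.univ → ¬ V ⊆ T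

/-- `z` is algebraic of degree at most `d` over the field `K` -/
def DegreeLe (K : IntermediateField ℚ Qb) (d : ℕ) (z : Qb) : Prop :=
  ∃ P : Polynomial Qb, P ≠ 0 ∧ P.natDegree ≤ d ∧ (∀ i, P.coeff i ∈ K) ∧ P.eval z = 0

/-- `Γ` has finite rank: it is contained in the saturation of a finitely generated group -/
def FiniteRank {n : ℕ} (Γ : Subgroup (Pt n)) : Prop :=
  ∃ Γ₀ : Subgroup (Pt n), Γ₀.FG ∧ ∀ x ∈ Γ, ∃ m : ℕ, 0 < m ∧ x ^ m ∈ Γ₀

/-- the zeros of the `A_j` and `B_j` are simple and different from each other -/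
def Separate {n : ℕ} (A B : Fin n → Polynomial Qb) : Prop :=
  ∀ a, ∑ j, ((A j).rootMultiplicity a + (B j).rootMultiplicity a) ≤ 1

/-- `x` is the point `(f_1(z), …, f_n(z))` of the torus, `f_j = A_j / B_j` -/
def IsValue {n : ℕ} (A B : Fin n → Polynomial Qb) (z : Qb) (x : Pt n) : Prop :=
  ∀ j, (B j).eval z ≠ 0 ∧ (x j : Qb) = (A j).eval z / (B j).eval z

/-- the largest of the heights of the coordinates; it is at most the height `hG` -/
noncomputable def hmax {n : ℕ} (x : Pt n) : ℝ := ⨆ j, NumberField.absLogHeight₁ (x j : Qb)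

/-- the translate `x T` -/
def translate {n : ℕ} (x : Pt n) (T : Set (Pt n)) : Set (Pt n) := {w | ∃ y ∈ T, w = x * y}

/-- the absolute height of Mathlib and of the library -/
theorem abs_eq (a : Qb) : NumberField.absLogHeight₁ a = h1 a := by
  have hx : IsIntegral ℚ a := (qbar_alg.isAlgebraic a).isIntegral
  have : FiniteDimensional ℚ (IntermediateField.adjoin ℚ {a}) :=
    IntermediateField.adjoin.finiteDimensional hx
  have : NumberField (IntermediateField.adjoin ℚ {a}) := {}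
  have h2 := h1_val (IntermediateField.adjoin ℚ {a}) (IntermediateField.AdjoinSimple.gen ℚ a)
  rw [IntermediateField.AdjoinSimple.coe_gen] at h2
  rw [h2]
  unfold NumberField.absLogHeight₁ NumberField.absMulHeight₁
  rw [dif_pos hx, Real.log_rpow (Height.mulHeight₁_pos _)]
  unfold Height.logHeight₁
  rw [div_eq_inv_mul]

theorem abs_nonneg' (a : Qb) : 0 ≤ NumberField.absLogHeight₁ a := by
  rw [abs_eq]
  exact h1_nonneg a

/-- proper closed subgroups are contained in the kernels of characters -/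
theorem exists_char {n : ℕ} (B : Subgroup (Pt n)) (hB : IsZClosed (B : Set (Pt n)))
    (hne : B ≠ ⊤) : ∃ e : Fin n → ℤ, e ≠ 0 ∧ ∀ b ∈ B, ∏ j, b j ^ e j = 1 := by
  classical
  obtain ⟨S, hS⟩ := hB
  obtain ⟨x, -, hx⟩ := SetLike.exists_of_lt (lt_top_iff_ne_top.2 hne)
  have hx' : x ∉ (B : Set (Pt n)) := hx
  rw [hS] at hx'
  simp only [Set.mem_ofPred_eq, not_forall] at hx'
  obtain ⟨f, hf, hfx⟩ := hx'
  have hvan : ∀ b ∈ B, MvPolynomial.eval (fun i => (b i : Qb)) f = 0 := by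
    intro b hb
    have hb' : b ∈ (B : Set (Pt n)) := hb
    rw [hS] at hb'
    exact hb' f hf
  let χ : (Fin n →₀ ℕ) → (B →* Qb) := fun μ =>
    { toFun := fun b => ∏ j, ((b : Pt n) j : Qb) ^ μ j
      map_one' := by simp
      map_mul' := fun a b => by
        simp only [Subgroup.coe_mul, Pi.mul_apply, Units.val_mul, mul_pow,
          Finset.prod_mul_distrib] }
  by_cases hinj : Set.InjOn χ f.support
  · exfalso
    have hli := (linearIndependent_monoidHom B Qb).comp
      (fun μ : f.support => χ μ) (fun a b h => Subtype.ext (hinj a.2 b.2 h))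
    have h0 : ∑ μ : f.support, f.coeff μ.1 • ((fun f : B →* Qb => (f : B → Qb)) (χ μ)) = 0 := by
      funext b
      have h1 := hvan b b.2
      rw [MvPolynomial.eval_eq'] at h1
      have h6 := Finset.sum_coe_sort f.support
        (fun d => f.coeff d * ∏ i, (((b : Pt n) i : Qbˣ) : Qb) ^ d i)
      rw [Finset.sum_apply, Pi.zero_apply, ← h1, ← h6]
      exact Finset.sum_congr rfl fun μ _ => rfl
    have h2 := Fintype.linearIndependent_iff.1 hli (fun μ => f.coeff μ.1) h0
    apply hfx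
    have h3 : f = 0 := by
      by_contra h3
      obtain ⟨μ, hμ⟩ := MvPolynomial.support_nonempty.2 h3
      exact MvPolynomial.mem_support_iff.1 hμ (h2 ⟨μ, hμ⟩)
    rw [h3, map_zero]
  · unfold Set.InjOn at hinj
    push Not at hinj
    obtain ⟨μ, -, ν, -, h1, h2⟩ := hinj
    refine ⟨fun j => (μ j : ℤ) - ν j, ?_, fun b hb => ?_⟩
    · intro h0
      apply h2
      ext j
      have := congrFun h0 j
      simp only [Pi.zero_apply] at this
      omega
    · have h3 : χ μ ⟨b, hb⟩ = χ ν ⟨b, hb⟩ := by rw [h1]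
      have h4 : ∏ j, ((b j : Qb)) ^ μ j = ∏ j, ((b j : Qb)) ^ ν j := h3
      apply Units.ext
      have h5 : ∀ j, b j ^ ((μ j : ℤ) - ν j) = b j ^ μ j * (b j ^ ν j)⁻¹ := fun j => by
        rw [zpow_sub, zpow_natCast, zpow_natCast]
      simp only [h5, Finset.prod_mul_distrib, Finset.prod_inv_distrib]
      push_cast
      rw [h4, mul_inv_cancel₀]
      exact Finset.prod_ne_zero_iff.2 fun j _ => pow_ne_zero _ (b j).ne_zero

/-- the coordinates of the saturation of a group of finite rank -/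
theorem exists_coord {n : ℕ} {Γ : Subgroup (Pt n)} (hΓ : FiniteRank Γ) :
    ∃ Λ : Subgroup Qbarˣ, Λ.FG ∧ ∀ γ : Pt n, (∃ m : ℕ, 0 < m ∧ γ ^ m ∈ Γ) →
      ∃ M : ℕ, 0 < M ∧ ∀ j, γ j ^ M ∈ Λ := by
  classical
  obtain ⟨Γ₀, ⟨s, hs⟩, h⟩ := hΓ
  let t : Finset Qbarˣ := s.biUnion fun g => Finset.univ.image fun j => g j
  refine ⟨Subgroup.closure (t : Set Qbarˣ), ⟨t, rfl⟩, ?_⟩
  have hmem : ∀ x ∈ Γ₀, ∀ j, x j ∈ Subgroup.closure (t : Set Qbarˣ) := by
    intro x hx j
    rw [← hs] at hx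
    induction hx using Subgroup.closure_induction with
    | mem g hg =>
      refine Subgroup.subset_closure ?_
      simp only [t, Finset.coe_biUnion, Finset.coe_image, Set.mem_iUnion]
      exact ⟨g, hg, j, by simp, rfl⟩
    | one => exact Subgroup.one_mem _
    | mul a b _ _ ha hb => exact Subgroup.mul_mem _ ha hb
    | inv a _ ha => exact Subgroup.inv_mem _ ha
  rintro γ ⟨m, hm, hγ⟩
  obtain ⟨r, hr, hr2⟩ := h _ hγ
  refine ⟨m * r, Nat.mul_pos hm hr, fun j => ?_⟩
  have h1 := hmem _ hr2 j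
  rwa [← pow_mul] at h1

theorem le_hmax {n : ℕ} (x : Pt n) (j : Fin n) : NumberField.absLogHeight₁ (x j : Qb) ≤ hmax x :=
  le_ciSup (f := fun j => NumberField.absLogHeight₁ (x j : Qb)) (Set.finite_range _).bddAbove j

theorem hmax_le {n : ℕ} (x : Pt n) : hmax x ≤ hG x := by
  unfold hmax hG
  rcases isEmpty_or_nonempty (Fin n) with h | h
  · rw [Real.iSup_of_isEmpty]
    exact Finset.sum_nonneg fun i _ => abs_nonneg' _
  · exact ciSup_le fun j => Finset.single_le_sum
      (f := fun i => NumberField.absLogHeight₁ (x i : Qb)) (fun i _ => abs_nonneg' _)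
      (Finset.mem_univ j)

/-- **The height inequality.** -/
theorem main_ineq {n : ℕ} (Γ : Subgroup (Pt n)) (hΓ : FiniteRank Γ) (K : IntermediateField ℚ Qb)
    [FiniteDimensional ℚ K] (d : ℕ) (hd : 1 ≤ d) (A B : Fin n → Polynomial Qb)
    (hA : ∀ j, A j ≠ 0) (hB : ∀ j, B j ≠ 0) (hAB : Separate A B) (N : ℕ)
    (hN : ∀ j, N ≤ (A j).natDegree + (B j).natDegree) (ε : ℝ) (hε : 0 < ε) :
    ∃ C : ℝ, ∀ z : Qb, DegreeLe K d z → ∀ x : Pt n, IsValue A B z x →
      ∀ T : Set (Pt n), IsTorsionVariety Γ T → T ≠ Set.univ → ∀ w ∈ translate x T,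
      (((N : ℝ) - 2 * d) / 2 - ε) * NumberField.absLogHeight₁ z - C ≤ hmax w ∧
      (IsIntegral ℤ z →
        (((N : ℝ) - (2 * d - 1)) / 2 - ε) * NumberField.absLogHeight₁ z - C ≤ hmax w) := by
  classical
  obtain ⟨Λ, hΛ, hco⟩ := exists_coord hΓ
  let K' : IntermediateField ℚ ℂ := K.map sgA
  have hfd : FiniteDimensional ℚ K' := (K.equivMap sgA).toLinearEquiv.finiteDimensional
  have halg : ∀ P : Polynomial Qb, ∀ i, IsAlgebraic ℚ ((P.map sg).coeff i) := fun P i => by
    rw [Polynomial.coeff_map]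
    exact sg_alg _
  have hdis : ∀ a : ℂ, ∑ j, (((A j).map sg).rootMultiplicity a +
      ((B j).map sg).rootMultiplicity a) ≤ 1 := by
    intro a
    by_cases ha : IsAlgebraic ℚ a
    · obtain ⟨a', rfl⟩ := exists_sg ha
      simp only [← Polynomial.eq_rootMultiplicity_map sg_inj]
      exact hAB a'
    · have h0 : ∀ P : Polynomial Qb, P ≠ 0 → (P.map sg).rootMultiplicity a = 0 := by
        intro P hP
        refine Polynomial.rootMultiplicity_eq_zero fun hr => ha ?_
        exact root_alg (halg P) ((Polynomial.mem_roots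
          ((Polynomial.map_ne_zero_iff sg_inj).2 hP)).2 hr)
      rw [Finset.sum_eq_zero fun j _ => by rw [h0 _ (hA j), h0 _ (hB j), add_zero]]
      exact Nat.zero_le _
  obtain ⟨C, -, hC⟩ := Pool.Agent.H594.WI.sqf_height Λ hΛ K' d hd (fun j => (A j).map sg)
    (fun j => (B j).map sg) (fun j => halg _) (fun j => halg _)
    (fun j => (Polynomial.map_ne_zero_iff sg_inj).2 (hA j))
    (fun j => (Polynomial.map_ne_zero_iff sg_inj).2 (hB j)) hdis N
    (fun j => by simp only [Polynomial.natDegree_map]; exact hN j) ε hε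
  refine ⟨C, fun z hz x hx T hT hTu w hw => ?_⟩
  obtain ⟨Bg, hBg, γ, hγ, rfl⟩ := hT
  have hBne : Bg ≠ ⊤ := by
    rintro rfl
    apply hTu
    refine Set.eq_univ_of_forall fun y => ⟨γ⁻¹ * y, trivial, ?_⟩
    rw [mul_inv_cancel_left]
  obtain ⟨e, he0, he⟩ := exists_char Bg hBg.1 hBne
  obtain ⟨y, ⟨b, hb, rfl⟩, rfl⟩ := hw
  obtain ⟨M, hM, hMγ⟩ := hco γ hγ
  let u : Qbarˣ := ∏ j, γ j ^ (-e j)
  have hu : u ∈ DivHull Λ := by
    refine ⟨M, hM, ?_⟩
    show (∏ j, γ j ^ (-e j)) ^ M ∈ Λ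
    rw [← Finset.prod_pow]
    refine Subgroup.prod_mem _ fun j _ => ?_
    rw [← zpow_natCast, ← zpow_mul, mul_comm, zpow_mul, zpow_natCast]
    exact Subgroup.zpow_mem _ (hMγ j) _
  have hk : ∏ j, ((γ j * b j)⁻¹) ^ e j = u := by
    have h1 : ∀ j, ((γ j * b j)⁻¹) ^ e j = γ j ^ (-e j) * (b j ^ e j)⁻¹ := fun j => by
      rw [inv_zpow, mul_zpow, mul_inv, zpow_neg]
    simp only [h1, Finset.prod_mul_distrib, Finset.prod_inv_distrib]
    rw [he b hb, inv_one, mul_one]
  have hAz : ∀ j, (A j).eval z ≠ 0 := by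
    intro j h0
    have h1 := (hx j).2
    rw [h0, zero_div] at h1
    exact (x j).ne_zero h1
  let δ : Fin n → ℂ := fun j => sg (((x * (γ * b)) j : Qb)⁻¹)
  have hδ : ∀ j, IsAlgebraic ℚ (δ j) := fun j => sg_alg _
  have hkey : ∏ j, (δ j * (((A j).map sg).eval (sg z) / ((B j).map sg).eval (sg z))) ^ e j =
      sg (u : Qbar) := by
    rw [← hk]
    push_cast
    rw [map_prod]
    refine Finset.prod_congr rfl fun j _ => ?_
    rw [map_zpow₀]
    congr 1
    rw [Polynomial.eval_map_apply, Polynomial.eval_map_apply, ← map_div₀, ← map_mul,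
      ← (hx j).2]
    congr 1
    have h1 : (x j : Qb) ≠ 0 := (x j).ne_zero
    have h2 : (γ j : Qb) ≠ 0 := (γ j).ne_zero
    have h3 : (b j : Qb) ≠ 0 := (b j).ne_zero
    simp only [Pi.mul_apply, Units.val_mul]
    field_simp
  have hz' : sg z ∈ Pool.Agent.H594.BD.DegLe K' d := by
    obtain ⟨P, hP, hPd, hPK, hPz⟩ := hz
    refine ⟨P.map sg, (Polynomial.map_ne_zero_iff sg_inj).2 hP, ?_, fun i => ?_, ?_⟩
    · rw [Polynomial.natDegree_map]
      exact hPd
    · rw [Polynomial.coeff_map]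
      exact ⟨P.coeff i, hPK i, rfl⟩
    · rw [Polynomial.eval_map_apply, hPz, map_zero]
  have hH : ∀ j, Pool.Agent.H594.WI.ht (δ j) ≤ hmax (x * (γ * b)) := by
    intro j
    show Pool.Agent.H594.WI.ht (sg _) ≤ _
    rw [Pool.Agent.H594.WI.ht_sg, h1_inv, ← abs_eq]
    exact le_hmax _ j
  obtain ⟨h1, h2⟩ := hC (sg z) hz'
    (fun j => by
      show ((A j).map sg).eval (sg z) ≠ 0
      rw [Polynomial.eval_map_apply]
      exact (map_ne_zero sg).2 (hAz j))
    (fun j => by
      show ((B j).map sg).eval (sg z) ≠ 0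
      rw [Polynomial.eval_map_apply]
      exact (map_ne_zero sg).2 (hx j).1)
    e he0 u hu δ hδ _ hH hkey
  rw [Pool.Agent.H594.WI.ht_sg, ← abs_eq] at h1 h2
  exact ⟨h1, fun hi => h2 (hi.map sg.toIntAlgHom)⟩

/-- Northcott's theorem -/
theorem northcott (K : IntermediateField ℚ Qb) [FiniteDimensional ℚ K] (d : ℕ) (R : ℝ) :
    {z : Qb | DegreeLe K d z ∧ NumberField.absLogHeight₁ z ≤ R}.Finite := by
  let K' : IntermediateField ℚ ℂ := K.map sgA
  have hfd : FiniteDimensional ℚ K' := (K.equivMap sgA).toLinearEquiv.finiteDimensional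
  refine ((Pool.Agent.H594.WI.northcott_cx K' d R).preimage (f := sg) sg_inj.injOn).subset ?_
  rintro z ⟨⟨P, hP, hPd, hPK, hPz⟩, hR⟩
  refine ⟨⟨P.map sg, (Polynomial.map_ne_zero_iff sg_inj).2 hP, ?_, fun i => ?_, ?_⟩, ?_⟩
  · rw [Polynomial.natDegree_map]
    exact hPd
  · rw [Polynomial.coeff_map]
    exact ⟨P.coeff i, hPK i, rfl⟩
  · rw [Polynomial.eval_map_apply, hPz, map_zero]
  · rw [Pool.Agent.H594.WI.ht_sg, ← abs_eq]
    exact hR

/-- from inequalities to finiteness -/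
theorem finite_of (K : IntermediateField ℚ Qb) [FiniteDimensional ℚ K] (d : ℕ) (c κ C : ℝ)
    (h : κ < c) (S : Set Qb) (hS : ∀ z ∈ S, DegreeLe K d z ∧ ∃ t : ℝ,
      c * NumberField.absLogHeight₁ z - C ≤ t ∧ t ≤ κ * NumberField.absLogHeight₁ z) :
    S.Finite := by
  refine (northcott K d (C / (c - κ))).subset ?_
  intro z hz
  obtain ⟨h1, t, h2, h3⟩ := hS z hz
  refine ⟨h1, ?_⟩
  have h4 : 0 < c - κ := sub_pos.2 h
  rw [le_div_iff₀ h4]
  linarith

/-- the exceptional `z` -/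
def exc {n : ℕ} (Γ : Subgroup (Pt n)) (K : IntermediateField ℚ Qb) (d : ℕ)
    (A B : Fin n → Polynomial Qb) (N : ℕ) (κ : ℝ) : Set Qb :=
  {z | DegreeLe K d z ∧ (κ < ((N : ℝ) - 2 * d) / 2 ∨
      (IsIntegral ℤ z ∧ κ < ((N : ℝ) - (2 * d - 1)) / 2)) ∧
    ∃ x : Pt n, IsValue A B z x ∧ ∃ T : Set (Pt n), IsTorsionVariety Γ T ∧ T ≠ Set.univ ∧
      ∃ w ∈ translate x T, hmax w ≤ κ * NumberField.absLogHeight₁ z}

theorem exc_finite {n : ℕ} (Γ : Subgroup (Pt n)) (hΓ : FiniteRank Γ)
    (K : IntermediateField ℚ Qb) [FiniteDimensional ℚ K] (d : ℕ) (hd : 1 ≤ d)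
    (A B : Fin n → Polynomial Qb) (hA : ∀ j, A j ≠ 0) (hB : ∀ j, B j ≠ 0)
    (hAB : Separate A B) (N : ℕ) (hN : ∀ j, N ≤ (A j).natDegree + (B j).natDegree) (κ : ℝ) :
    (exc Γ K d A B N κ).Finite := by
  have main : ∀ (P : Qb → Prop) (t : ℝ), κ < ((N : ℝ) - t) / 2 → (∀ ε : ℝ, 0 < ε → ∃ C : ℝ,
      ∀ z : Qb, DegreeLe K d z → ∀ x : Pt n, IsValue A B z x →
      ∀ T : Set (Pt n), IsTorsionVariety Γ T → T ≠ Set.univ → ∀ w ∈ translate x T, P z →
      (((N : ℝ) - t) / 2 - ε) * NumberField.absLogHeight₁ z - C ≤ hmax w) →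
      {z | DegreeLe K d z ∧ P z ∧ ∃ x : Pt n, IsValue A B z x ∧ ∃ T : Set (Pt n),
        IsTorsionVariety Γ T ∧ T ≠ Set.univ ∧
        ∃ w ∈ translate x T, hmax w ≤ κ * NumberField.absLogHeight₁ z}.Finite := by
    intro P t ht h
    obtain ⟨C, hC⟩ := h ((((N : ℝ) - t) / 2 - κ) / 2) (by linarith)
    refine finite_of K d (((N : ℝ) - t) / 2 - (((N : ℝ) - t) / 2 - κ) / 2) κ C (by linarith) _ ?_
    rintro z ⟨hz, hP, x, hx, T, hT, hTu, w, hw, hle⟩
    exact ⟨hz, hmax w, hC z hz x hx T hT hTu w hw hP, hle⟩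
  have hmain := main_ineq Γ hΓ K d hd A B hA hB hAB N hN
  by_cases h1 : κ < ((N : ℝ) - 2 * d) / 2
  · refine (main (fun _ => True) (2 * d) h1 (fun ε hε => ?_)).subset
      fun z ⟨hz, _, h⟩ => ⟨hz, trivial, h⟩
    obtain ⟨C, hC⟩ := hmain ε hε
    exact ⟨C, fun z hz x hx T hT hTu w hw _ => (hC z hz x hx T hT hTu w hw).1⟩
  · by_cases h2 : κ < ((N : ℝ) - (2 * d - 1)) / 2
    · refine (main (fun z => IsIntegral ℤ z) (2 * d - 1) h2 (fun ε hε => ?_)).subset ?_
      · obtain ⟨C, hC⟩ := hmain ε hε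
        exact ⟨C, fun z hz x hx T hT hTu w hw hi => (hC z hz x hx T hT hTu w hw).2 hi⟩
      · rintro z ⟨hz, h3, h⟩
        exact ⟨hz, (h3.resolve_left h1).1, h⟩
    · refine Set.Finite.subset Set.finite_empty ?_
      rintro z ⟨hz, h3, h⟩
      rcases h3 with h3 | h3
      · exact absurd h3 h1
      · exact absurd h3.2 h2

theorem hmax_one {n : ℕ} : hmax (1 : Pt n) = 0 := by
  have h0 : NumberField.absLogHeight₁ (1 : Qb) = 0 := by
    have h1 := Pool.Agent.Y215.SK.h1_pow (1 : Qb) 0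
    rw [pow_zero, Nat.cast_zero, zero_mul] at h1
    rw [abs_eq, h1]
  unfold hmax
  have h2 : (fun j : Fin n => NumberField.absLogHeight₁ (((1 : Pt n) j : Qbˣ) : Qb)) =
      fun _ => (0 : ℝ) := funext fun j => h0
  rw [h2]
  exact Real.iSup_const_zero

/-- The height `θ` is reached densely: the points of `V` of height at most `θ` are Zariski dense in
`V`. The essential minimum of `V` is the infimum of these `θ`. -/
def DenseAt {n : ℕ} (V : Set (Pt n)) (θ : ℝ) : Prop :=
  ∀ W : Set (Pt n), IsZClosed W → {x | x ∈ V ∧ hG x ≤ θ} ⊆ W → V ⊆ W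

theorem closed_empty {n : ℕ} : IsZClosed (∅ : Set (Pt n)) := by
  refine ⟨{1}, ?_⟩
  symm
  rw [Set.eq_empty_iff_forall_notMem]
  intro x hx
  have := hx 1 rfl
  rw [map_one] at this
  exact one_ne_zero this

/-- **Main result.** (1) The distance of the point `(f_1(z), …, f_n(z))` from all proper `Γ`-torsion
subvarieties. (2) For all but finitely many `z` the translates of the `Γ`-torsion subvarieties by
this point are `Γ`-transverse, and the subvarieties of the proper ones have large heights. -/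
theorem result {n : ℕ} (Γ : Subgroup (Pt n)) (hΓ : FiniteRank Γ)
    (K : IntermediateField ℚ Qb) [FiniteDimensional ℚ K] (d : ℕ) (hd : 1 ≤ d)
    (A B : Fin n → Polynomial Qb) (hA : ∀ j, A j ≠ 0) (hB : ∀ j, B j ≠ 0)
    (hAB : Separate A B) (N : ℕ) (hN : ∀ j, N ≤ (A j).natDegree + (B j).natDegree) :
    (∀ ε : ℝ, 0 < ε → ∃ C : ℝ, ∀ z : Qb, DegreeLe K d z → ∀ x : Pt n, IsValue A B z x →
      ∀ T : Set (Pt n), IsTorsionVariety Γ T → T ≠ Set.univ → ∀ w ∈ translate x T,
      (((N : ℝ) - 2 * d) / 2 - ε) * NumberField.absLogHeight₁ z - C ≤ hmax w ∧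
      (IsIntegral ℤ z →
        (((N : ℝ) - (2 * d - 1)) / 2 - ε) * NumberField.absLogHeight₁ z - C ≤ hmax w)) ∧
    ∀ κ : ℝ, 0 ≤ κ → ∃ E : Set Qb, E.Finite ∧ ∀ z ∉ E, DegreeLe K d z →
      (κ < ((N : ℝ) - 2 * d) / 2 ∨ (IsIntegral ℤ z ∧ κ < ((N : ℝ) - (2 * d - 1)) / 2)) →
      ∀ x : Pt n, IsValue A B z x → ∀ T : Set (Pt n), IsTorsionVariety Γ T →
        IsTransverse Γ (translate x T) ∧
        (T ≠ Set.univ → ∀ V ⊆ translate x T,
          (∀ w ∈ V, κ * NumberField.absLogHeight₁ z < hmax w ∧ hmax w ≤ hG w) ∧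
          (V.Nonempty → ∀ θ : ℝ, DenseAt V θ → κ * NumberField.absLogHeight₁ z ≤ θ)) := by
  refine ⟨main_ineq Γ hΓ K d hd A B hA hB hAB N hN, fun κ hκ => ⟨exc Γ K d A B N κ,
    exc_finite Γ hΓ K d hd A B hA hB hAB N hN κ, fun z hz hzd hκ2 x hx T hT => ?_⟩⟩
  have key : ∀ T : Set (Pt n), IsTorsionVariety Γ T → T ≠ Set.univ → ∀ w ∈ translate x T,
      κ * NumberField.absLogHeight₁ z < hmax w := by
    intro T hT hTu w hw
    by_contra h
    exact hz ⟨hzd, hκ2, x, hx, T, hT, hTu, w, hw, not_lt.1 h⟩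
  refine ⟨?_, fun hTu V hV => ⟨fun w hw => ⟨key T hT hTu w (hV hw), hmax_le w⟩, ?_⟩⟩
  · rintro T' ⟨B', hB', γ', ⟨m', hm', hγ'⟩, rfl⟩ hTu' hsub
    obtain ⟨B₀, hB₀, γ, ⟨m, hm, hγ⟩, rfl⟩ := hT
    obtain ⟨b', hb', he⟩ := hsub ⟨γ, ⟨1, Subgroup.one_mem _, (mul_one _).symm⟩, rfl⟩
    have h1 := key {y | ∃ b ∈ B', y = (γ * γ'⁻¹) * b} ⟨B', hB', γ * γ'⁻¹, ⟨m * m',
      Nat.mul_pos hm hm', ?_⟩, rfl⟩ ?_ 1 ⟨x⁻¹, ⟨b'⁻¹, Subgroup.inv_mem _ hb', ?_⟩,
      (mul_inv_cancel x).symm⟩
    · rw [hmax_one] at h1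
      exact absurd h1 (not_lt.2 (mul_nonneg hκ (abs_nonneg' z)))
    · rw [mul_pow, pow_mul, mul_comm m m', pow_mul, inv_pow]
      exact Subgroup.mul_mem _ (Subgroup.pow_mem _ hγ _)
        (Subgroup.pow_mem _ (Subgroup.inv_mem _ hγ') _)
    · intro huniv
      apply hTu'
      refine Set.eq_univ_of_forall fun y => ?_
      obtain ⟨b, hb, hy⟩ : (γ * γ'⁻¹) * γ'⁻¹ * y ∈
          {y | ∃ b ∈ B', y = (γ * γ'⁻¹) * b} := by rw [huniv]; trivial
      refine ⟨b, hb, ?_⟩
      have h2 : γ'⁻¹ * y = b := by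
        rw [mul_assoc] at hy
        exact mul_left_cancel hy
      rw [← h2, mul_inv_cancel_left]
    · have h2 : x * γ = γ' * b' := he
      have h3 : x = γ' * b' * γ⁻¹ := by rw [← h2, mul_inv_cancel_right]
      rw [h3, mul_inv_rev, mul_inv_rev, inv_inv, mul_comm b'⁻¹, mul_assoc]
  · rintro hne θ hθ
    by_contra h
    push Not at h
    obtain ⟨v, hv⟩ := hne
    have h1 := hθ ∅ closed_empty (fun w hw => ?_) hv
    · exact h1
    · have h2 := key T hT hTu w (hV hw.1)
      have h3 := hmax_le w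
      exact absurd hw.2 (not_le.2 (h.trans (h2.trans_le h3)))

end Pool.Agent.Results.MP_187c26_nt.TranslatesByValues
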